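import Mathlib
import Pool.Agent.H3.JMProof

set_option autoImplicit false

open MeasureTheory Filter Topology Pool.Agent.H3.JM

namespace Pool.Agent.Results.MP_935800_an.JordanSlits

/-- In every dimension `d ≥ 1` there is a bounded open Jordan measurable set `D` of measure `1` such
that `e(n, F^k_d(D)) n^{k/d} → ∞` for every `k ≥ 1`. -/
theorem result : ∀ d : ℕ, 1 ≤ d → ∃ D : Set (Fin d → ℝ),
    IsOpen D ∧ Bornology.IsBounded D ∧ volume (frontier D) = 0 ∧ volume D = 1 ∧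
    ∀ k : ℕ, 1 ≤ k →
      Tendsto (fun n : ℕ => err d k n D * ENNReal.ofReal ((n : ℝ) ^ ((k : ℝ) / (d : ℝ)))) atTop (𝓝 ⊤) := by
  intro d hd
  obtain ⟨e, rfl⟩ : ∃ e, d = e + 1 := ⟨d - 1, by omega⟩
  exact ⟨D e, D_open e, D_bdd e, frontier_D e, vol_D e, fun k hk => main e k hk⟩

end Pool.Agent.Results.MP_935800_an.JordanSlits
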